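import Pool.Agent.Lib_helper57.LDS.W1c
import Pool.Agent.Lib_helper59.RCT.Iface
import Pool.Agent.Lib_helper59.RCT.ExpDom

/-!
# LDS: common definitions

Class side: `A₂ = F diag(a) Fᴴ`, `D₂ = F diag(d) Fᴴ`, `|d i| ≤ a i`, where the columns of `F` are
linearly independent and `(FᴴF)⁻¹ = diag g - K`, `K ≥ 0` entrywise. Other side: any pair `(A, D)`.
Letters `U i = g i + a i A + d i D`; net `M = ⊕ U i - K ⊗ 1` (index `m × n`, node first).
Words are `(i, x)`, `x : Fin k → m`, weight `cwt Q i (List.ofFn x)` (helper57, W1b).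
-/

set_option autoImplicit false

open scoped ENNReal ComplexOrder Kronecker

namespace Pool.Agent.LDS

open Matrix MeasureTheory
open Pool.Agent.Lib_helper98.Renyi Pool.Agent.Lib_helper59.Lieb Pool.Agent.Lib_helper59.RCT

variable {n m κ : Type} [Fintype n] [DecidableEq n] [Fintype m] [DecidableEq m]
  [Fintype κ] [DecidableEq κ]

/-- a real matrix as a complex one -/
noncomputable def cm (Q : Matrix m m ℝ) : Matrix m m ℂ := Q.map fun x => (x : ℂ)

/-- block diagonal matrix, node first -/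
def bdm (U : m → Matrix n n ℂ) : Matrix (m × n) (m × n) ℂ :=
  Matrix.of fun p q => if p.1 = q.1 then U p.1 p.2 q.2 else 0

/-- the net `⊕ U i - Q ⊗ 1` -/
noncomputable def net (U : m → Matrix n n ℂ) (Q : Matrix m m ℝ) : Matrix (m × n) (m × n) ℂ :=
  bdm U - cm Q ⊗ₖ (1 : Matrix n n ℂ)

/-- the logarithm of a letter -/
noncomputable def lg (U : m → Matrix n n ℂ) (i : m) : Matrix n n ℂ := cfc Real.log (U i)

/-- the letters `g i + a i A + d i D` -/
noncomputable def let3 (g a d : m → ℝ) (A D : Matrix n n ℂ) (i : m) : Matrix n n ℂ :=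
  g i • (1 : Matrix n n ℂ) + a i • A + d i • D

/-- law of `(s a, s d)` under `e^{-g s} ds`, `s > 0` -/
noncomputable def nu (g a d : ℝ) : Measure (ℝ × ℝ) :=
  ((volume.restrict (Set.Ioi (0 : ℝ))).withDensity
    fun s => ENNReal.ofReal (Real.exp (-(g * s)))).map fun s => (s * a, s * d)

/-- convolution of the laws along a word -/
noncomputable def cnv (g a d : m → ℝ) : List m → Measure (ℝ × ℝ)
  | [] => Measure.dirac 0
  | i :: L => Measure.conv (nu (g i) (a i) (d i)) (cnv g a d L)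

/-- `F` has linearly independent columns with obtuse dual basis: `(FᴴF)⁻¹ = diag g - K`, `K ≥ 0` -/
structure Obt (F : Matrix κ m ℂ) (g : m → ℝ) (K : Matrix m m ℝ) : Prop where
  inv : (Fᴴ * F) * (dg g - cm K) = 1
  nonneg : ∀ i j, 0 ≤ K i j

/-- `S = F diag(p) Fᴴ`, `R = F diag(q) Fᴴ` with such an `F` -/
def ObtPair (S R : Matrix κ κ ℂ) : Prop :=
  ∃ (m : Type) (_ : Fintype m) (_ : DecidableEq m) (F : Matrix κ m ℂ) (g p q : m → ℝ)
    (K : Matrix m m ℝ), Obt F g K ∧ (∀ i, 0 ≤ p i) ∧ (∀ i, 0 ≤ q i) ∧ (∀ i, 0 < p i + q i) ∧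
    S = F * dg p * Fᴴ ∧ R = F * dg q * Fᴴ

end Pool.Agent.LDS
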